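import Pool.Agent.Helper41.LD4.Defs
import Pool.Agent.Helper4.LD3.Fin
import Pool.Agent.Helper78.LD4.DI

/-!
# LD4, block DI2: the discrepancy in a power of an integer base between two windows
-/

set_option autoImplicit false

namespace Pool.Agent.Helper4.LD4

open Set MeasureTheory
open Pool.Agent.Helper41.LD4
open Pool.Agent.Helper4.LD3 (sInf_le_iff sInf_le_iff')
open Pool.Agent.Helper78.LD4 (disc_rat)

theorem sInf_one_iff {τ ℓ : ℝ} (hτ : 1 < τ) (hℓ : 0 < ℓ) (n : ℕ) :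
    sInf {n : ℕ | 1 ≤ τ ^ n * ℓ} ≤ n ↔ 1 ≤ τ ^ n * ℓ := by
  have h := sInf_le_iff hτ hℓ (Q := 1) le_rfl 0 n
  simpa only [one_mul, add_zero] using h

/-- the exponents of one class between two windows -/
theorem sum_class {τ : ℝ} (hτ : 1 < τ) {Q e : ℕ} (hQ : 1 ≤ Q) (he : e < Q) {ℓ ℓ' : ℝ} (hℓ' : 0 < ℓ') (hℓℓ : ℓ' ≤ ℓ) (F : ℕ → ℝ) :
    ∑ n ∈ Finset.Ico (sInf {n : ℕ | 1 ≤ τ ^ n * ℓ}) (sInf {n : ℕ | 1 ≤ τ ^ n * ℓ'}) with n % Q = e, F n =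
      ∑ j ∈ Finset.range (sInf {j : ℕ | 1 ≤ τ ^ (Q * j + e) * ℓ'} - sInf {j : ℕ | 1 ≤ τ ^ (Q * j + e) * ℓ}),
        F (Q * (sInf {j : ℕ | 1 ≤ τ ^ (Q * j + e) * ℓ} + j) + e) := by
  have hℓ : 0 < ℓ := hℓ'.trans_le hℓℓ
  set n0 := sInf {j : ℕ | 1 ≤ τ ^ (Q * j + e) * ℓ} with hn0
  set n1 := sInf {j : ℕ | 1 ≤ τ ^ (Q * j + e) * ℓ'} with hn1
  have i0 : ∀ j, n0 ≤ j ↔ 1 ≤ τ ^ (Q * j + e) * ℓ := fun j => sInf_le_iff hτ hℓ hQ e j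
  have i1 : ∀ j, n1 ≤ j ↔ 1 ≤ τ ^ (Q * j + e) * ℓ' := fun j => sInf_le_iff hτ hℓ' hQ e j
  have I0 := fun n => sInf_one_iff hτ hℓ n
  have I1 := fun n => sInf_one_iff hτ hℓ' n
  refine Finset.sum_bij' (fun n _ => n / Q - n0) (fun j _ => Q * (n0 + j) + e) ?_ ?_ ?_ ?_ ?_
  · intro n hn
    simp only [Finset.mem_filter, Finset.mem_Ico] at hn
    obtain ⟨⟨h1, h2⟩, h4⟩ := hn
    have h5 : n = Q * (n / Q) + e := by
      have := Nat.div_add_mod n Q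
      rw [h4] at this
      exact this.symm
    have h6 : n0 ≤ n / Q := by rw [i0, ← h5, ← I0]; exact h1
    have h7 : n / Q < n1 := by rw [← not_le, i1, ← h5, ← I1]; omega
    rw [Finset.mem_range]
    omega
  · intro j hj
    rw [Finset.mem_range] at hj
    simp only [Finset.mem_filter, Finset.mem_Ico]
    refine ⟨⟨?_, ?_⟩, ?_⟩
    · rw [I0, ← i0]; omega
    · rw [← not_le, I1, ← i1]; omega
    · rw [Nat.mul_add_mod, Nat.mod_eq_of_lt he]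
  · intro n hn
    simp only [Finset.mem_filter, Finset.mem_Ico] at hn
    obtain ⟨⟨h1, h2⟩, h4⟩ := hn
    have h5 : n = Q * (n / Q) + e := by
      have := Nat.div_add_mod n Q
      rw [h4] at this
      exact this.symm
    have h6 : n0 ≤ n / Q := by rw [i0, ← h5, ← I0]; exact h1
    have h8 : n0 + (n / Q - n0) = n / Q := by omega
    rw [h8, ← h5]
  · intro j hj
    rw [Nat.mul_add_div (by omega), Nat.div_eq_of_lt he]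
    omega
  · intro n hn
    simp only [Finset.mem_filter, Finset.mem_Ico] at hn
    obtain ⟨⟨h1, h2⟩, h4⟩ := hn
    have h5 : n = Q * (n / Q) + e := by
      have := Nat.div_add_mod n Q
      rw [h4] at this
      exact this.symm
    have h6 : n0 ≤ n / Q := by rw [i0, ← h5, ← I0]; exact h1
    have h8 : n0 + (n / Q - n0) = n / Q := by omega
    rw [h8, ← h5]

/-- the multiples of `a` between two windows -/
theorem card_mult {τ : ℝ} (hτ : 1 < τ) {a : ℕ} (ha : 1 ≤ a) {ℓ ℓ' : ℝ} (hℓ' : 0 < ℓ') (hℓℓ : ℓ' ≤ ℓ) (p : ℕ → Prop) [DecidablePred p] :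
    ((Finset.Ico (sInf {n : ℕ | 1 ≤ τ ^ n * ℓ}) (sInf {n : ℕ | 1 ≤ τ ^ n * ℓ'})).filter fun n : ℕ => a ∣ n ∧ p n).card =
      ((Finset.Ico (sInf {n : ℕ | 1 ≤ (τ ^ a) ^ n * ℓ}) (sInf {n : ℕ | 1 ≤ (τ ^ a) ^ n * ℓ'})).filter fun n : ℕ => p (a * n)).card := by
  have hℓ : 0 < ℓ := hℓ'.trans_le hℓℓ
  have ha0 : 0 < a := ha
  have I0 := fun n => sInf_one_iff hτ hℓ n
  have I1 := fun n => sInf_one_iff hτ hℓ' n
  have J0 := fun n => sInf_le_iff' hτ hℓ ha n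
  have J1 := fun n => sInf_le_iff' hτ hℓ' ha n
  symm
  refine Finset.card_bij' (fun n _ => a * n) (fun n _ => n / a) ?_ ?_ ?_ ?_
  · intro n hn
    simp only [Finset.mem_filter, Finset.mem_Ico] at hn ⊢
    obtain ⟨⟨h1, h2⟩, h3⟩ := hn
    refine ⟨⟨?_, ?_⟩, dvd_mul_right a n, h3⟩
    · rw [I0, ← J0]; exact h1
    · rw [← not_le, I1, ← J1]; omega
  · intro n hn
    simp only [Finset.mem_filter, Finset.mem_Ico] at hn ⊢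
    obtain ⟨⟨h1, h2⟩, ⟨m, rfl⟩, h4⟩ := hn
    rw [Nat.mul_div_cancel_left m ha0]
    refine ⟨⟨?_, ?_⟩, h4⟩
    · rw [J0, ← I0]; exact h1
    · rw [← not_le, J1, ← I1]; omega
  · intro n _
    exact Nat.mul_div_cancel_left n ha0
  · intro n hn
    simp only [Finset.mem_filter, Finset.mem_Ico] at hn
    exact Nat.mul_div_cancel' hn.2.1

/-- DI2: in the form of `class_sum` of LD3 -/
theorem class_rat {τ : ℝ} {r p q : ℕ} (hτ : 1 < τ) (hG : RatGen τ r p q) {a Q K : ℕ} (ha : 1 ≤ a) (hQ : 1 ≤ Q) (haQ : a ∣ Q) (hrQ : r ∣ Q)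
    (hK : 1 ≤ K) (x : ℝ) {ℓ ℓ' E : ℝ} (hℓ' : 0 < ℓ') (hℓℓ : ℓ' ≤ ℓ) (hE : 1 ≤ E)
    (h : ∀ e < Q, ∀ t ∈ Ib p K, |∑ j ∈ Finset.range (sInf {j : ℕ | 1 ≤ τ ^ (Q * j + e) * ℓ'} - sInf {j : ℕ | 1 ≤ τ ^ (Q * j + e) * ℓ}),
      fb p t (τ ^ (Q * (sInf {j : ℕ | 1 ≤ τ ^ (Q * j + e) * ℓ} + j) + e) * x)| ≤ E)
    {α γ : ℝ} (h0 : 0 ≤ α) (h1 : α ≤ γ) (h2 : γ ≤ 1) :
    |(((Finset.Ico (sInf {n : ℕ | 1 ≤ (τ ^ a) ^ n * ℓ}) (sInf {n : ℕ | 1 ≤ (τ ^ a) ^ n * ℓ'})).filter fun n : ℕ =>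
        α ≤ Int.fract (x * (τ ^ a) ^ n) ∧ Int.fract (x * (τ ^ a) ^ n) < γ).card : ℝ) -
      (((sInf {n : ℕ | 1 ≤ (τ ^ a) ^ n * ℓ'} : ℕ) : ℝ) - ((sInf {n : ℕ | 1 ≤ (τ ^ a) ^ n * ℓ} : ℕ) : ℝ)) * (γ - α)| ≤
      40 * p ^ 3 * Q * K * E + 4 * (((sInf {n : ℕ | 1 ≤ τ ^ n * ℓ'} : ℕ) : ℝ) - ((sInf {n : ℕ | 1 ≤ τ ^ n * ℓ} : ℕ) : ℝ)) * (1 / 2) ^ K := by
  have hℓ : 0 < ℓ := hℓ'.trans_le hℓℓ
  have hn : sInf {n : ℕ | 1 ≤ τ ^ n * ℓ} ≤ sInf {n : ℕ | 1 ≤ τ ^ n * ℓ'} := by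
    rw [sInf_one_iff hτ hℓ]
    have h3 := (sInf_one_iff hτ hℓ' (sInf {n : ℕ | 1 ≤ τ ^ n * ℓ'})).1 le_rfl
    exact h3.trans (mul_le_mul_of_nonneg_left hℓℓ (by positivity))
  have hN : sInf {n : ℕ | 1 ≤ (τ ^ a) ^ n * ℓ} ≤ sInf {n : ℕ | 1 ≤ (τ ^ a) ^ n * ℓ'} := by
    rw [sInf_le_iff' hτ hℓ ha]
    have h3 := (sInf_le_iff' hτ hℓ' ha (sInf {n : ℕ | 1 ≤ (τ ^ a) ^ n * ℓ'})).1 le_rfl
    exact h3.trans (mul_le_mul_of_nonneg_left hℓℓ (by positivity))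
  have hy : ∀ n : ℕ, (p : ℝ) * (τ ^ n * x) = q * (τ ^ (n + r) * x) := by
    intro n
    have hq0 : (q : ℝ) ≠ 0 := by
      have := hG.hq
      positivity
    rw [pow_add, hG.pow]
    field_simp
  have key := disc_rat (y := fun n => τ ^ n * x) hG.hq hG.hpq hG.hr hy ha hQ haQ hrQ hK hn hE (fun e he t ht => by
    rw [sum_class hτ hQ he hℓ' hℓℓ (fun n => fb p t (τ ^ n * x))]
    exact h e he t ht) h0 h1 h2
  have e1 := card_mult hτ ha hℓ' hℓℓ (fun n : ℕ => α ≤ Int.fract (τ ^ n * x) ∧ Int.fract (τ ^ n * x) < γ)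
  have e2 := card_mult hτ ha hℓ' hℓℓ (fun _ => True)
  simp only [and_true, Finset.filter_true, Nat.card_Ico] at e2
  rw [e1, e2, Nat.cast_sub hN] at key
  have e3 : ∀ n : ℕ, τ ^ (a * n) * x = x * (τ ^ a) ^ n := fun n => by rw [pow_mul, mul_comm]
  simp only [e3] at key
  exact key

end Pool.Agent.Helper4.LD4
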