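import Pool.Agent.Helper41.LD4.Cst
import Pool.Agent.Helper4.LD4.DI2
import Pool.Agent.Helper46.LD4.STA

/-!
# LD4, block CLS: the discrepancy of one base on a good window
-/

set_option autoImplicit false

namespace Pool.Agent.Helper4.LD4

open Set MeasureTheory Filter Topology
open Pool.Agent.Helper41.LD (av var haar DiscLe Dioph Kk)
open Pool.Agent.Helper41.LD2 (EqA)
open Pool.Agent.Helper41.LD3 (Cst Us tm fr lin lamG)
open Pool.Agent.Helper41.LD4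
open Pool.Agent.Helper4.LD3 (class_sum)
open Pool.Agent.Helper65.LD.F (disc_of_haar)
open Pool.Agent.Helper46.LD4 (stage_sums4)

variable {κ : ℕ} {τ : ℕ → ℝ} {ty : ℕ → ℕ × ℕ × ℕ} {g Q R CF DF Cb m Cq G K : ℕ}

theorem stage_class4 (H : Cst4 τ ty g Q R CF DF Cb m Cq G) (B : Big4 κ τ ty g Q R DF Cb m Cq G K) {c : ℝ → ℝ} (hc : ∀ y, RatPow y → c y = 0)
    {ℓst ℓ a : ℝ} (hℓ : 0 < ℓ) (hst : ℓ ≤ ℓst) (hT : ∀ s < g * Q, tm τ Q s ℓ - tm τ Q s ℓst ≤ 2 ^ (K + 1) * (G * K ^ (2 * κ + 1)))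
    (hgood : GoodF4 τ ty c g Q R G κ ℓst K a ℓ) {x : ℝ} (hx : x ∈ Icc a (a + ℓ)) {h e : ℕ} (hh : h < g) (he : 1 ≤ e) (heQ : e ∣ Q)
    (hN : sInf {n : ℕ | 1 ≤ τ h ^ n * ℓ} ≤ sInf {n : ℕ | 1 ≤ τ h ^ n * ℓst} + 2 ^ (K + 1) * (Q * G * K ^ (2 * κ + 1)))
    {α γ : ℝ} (h0 : 0 ≤ α) (h1 : α ≤ γ) (h2 : γ ≤ 1) :
    |(((Finset.Ico (sInf {n : ℕ | 1 ≤ (τ h ^ e) ^ n * ℓst}) (sInf {n : ℕ | 1 ≤ (τ h ^ e) ^ n * ℓ})).filter fun n : ℕ =>
        α ≤ Int.fract (x * (τ h ^ e) ^ n + c ((τ h ^ e) ^ n)) ∧ Int.fract (x * (τ h ^ e) ^ n + c ((τ h ^ e) ^ n)) < γ).card : ℝ) -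
      (((sInf {n : ℕ | 1 ≤ (τ h ^ e) ^ n * ℓ} : ℕ) : ℝ) - ((sInf {n : ℕ | 1 ≤ (τ h ^ e) ^ n * ℓst} : ℕ) : ℝ)) * (γ - α)| ≤
      (1400000 * m ^ 3 * Q * G : ℕ) * (K : ℝ) ^ (2 * κ + 4) := by
  have hτ1 := H.base.hτ _ hh
  have hQ := H.base.hQ
  have hK1 : 1 ≤ K := le_trans (by norm_num) B.hK2
  have hKr : (1 : ℝ) ≤ K := by exact_mod_cast hK1
  have hGr : (1 : ℝ) ≤ G := by exact_mod_cast H.G_ge.2.2.2.1
  have hQr : (1 : ℝ) ≤ Q := by exact_mod_cast hQ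
  have hmr : (1 : ℝ) ≤ m := by exact_mod_cast H.m1
  have hst0 : 0 < ℓst := hℓ.trans_le hst
  -- the class of the residue `u`
  have hcls : ∀ u < Q, Q * h + u < g * Q ∧ (Q * h + u) / Q = h ∧ (Q * h + u) % Q = u := by
    intro u hu
    refine ⟨?_, ?_, ?_⟩
    · calc Q * h + u < Q * h + Q := by omega
        _ = Q * (h + 1) := by ring
        _ ≤ Q * g := Nat.mul_le_mul_left _ hh
        _ = _ := by ring
    · rw [Nat.mul_add_div (by omega), Nat.div_eq_of_lt hu, add_zero]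
    · rw [Nat.mul_add_mod, Nat.mod_eq_of_lt hu]
  have e3 : ∀ u < Q, ∀ j, fr τ Q (Q * h + u) j = τ h ^ (Q * j + u) := fun u hu j => by
    obtain ⟨-, h4, h5⟩ := hcls u hu
    unfold fr
    rw [h4, h5]
  have e4 : ∀ u < Q, ∀ ℓ, tm τ Q (Q * h + u) ℓ = sInf {j : ℕ | 1 ≤ τ h ^ (Q * j + u) * ℓ} := fun u hu ℓ => by
    unfold tm
    simp only [e3 u hu]
  have hX : (1 : ℝ) ≤ (K : ℝ) ^ (2 * κ + 4) := one_le_pow₀ hKr
  set X : ℝ := Q * G * (K : ℝ) ^ (2 * κ + 4) with hXdef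
  have hX0 : 0 ≤ X := by positivity
  have hfin : ((1400000 * m ^ 3 * Q * G : ℕ) : ℝ) * (K : ℝ) ^ (2 * κ + 4) = 1400000 * (m : ℝ) ^ 3 * X := by
    rw [hXdef]
    push_cast
    ring
  have hm3 : (1 : ℝ) ≤ (m : ℝ) ^ 3 := one_le_pow₀ hmr
  rw [hfin]
  rcases H.hty h hh with h3 | h3
  · -- Diophantine generator: dyadic Haar functions
    have h4 : ∀ u < Q, DiscLe (fun j => τ h ^ (Q * (sInf {j : ℕ | 1 ≤ τ h ^ (Q * j + u) * ℓst} + j) + u) * x +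
        c (τ h ^ (Q * (sInf {j : ℕ | 1 ≤ τ h ^ (Q * j + u) * ℓst} + j) + u)))
      (sInf {j : ℕ | 1 ≤ τ h ^ (Q * j + u) * ℓ} - sInf {j : ℕ | 1 ≤ τ h ^ (Q * j + u) * ℓst})
        (140000 * G * (K : ℝ) ^ (2 * κ + 4)) := by
      intro u hu
      obtain ⟨h5, h6, h7⟩ := hcls u hu
      have h8 := disc_of_haar (fun j => Us τ c Q ℓst (Q * h + u) j x) (tm τ Q (Q * h + u) ℓ - tm τ Q (Q * h + u) ℓst) K
        (E := 33000 * G * (K : ℝ) ^ (2 * κ + 3)) (by positivity) (fun k hk i hi => by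
          have h9 := stage_sums4 H B c hℓ hst hgood hx h5 (q := (0, 0, k, i)) (by
            rw [h6, h3.2]
            unfold sysI
            rw [if_pos rfl]
            simp only [Finset.mem_filter, Finset.mem_product, Finset.mem_singleton, Finset.mem_range, true_and]
            exact ⟨⟨hk, hi.trans_le (Nat.pow_le_pow_right (by norm_num) hk.le)⟩, hi⟩)
          rw [h6, h3.2] at h9
          unfold sysf at h9
          simpa only [if_pos] using h9)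
      have h9 := hT _ h5
      have h10 := h8.mono (E' := 140000 * G * (K : ℝ) ^ (2 * κ + 4)) (by
        have i1 : (((tm τ Q (Q * h + u) ℓ - tm τ Q (Q * h + u) ℓst : ℕ)) : ℝ) ≤ 2 ^ (K + 1) * (G * (K : ℝ) ^ (2 * κ + 1)) := by
          exact_mod_cast h9
        have i2 : (((tm τ Q (Q * h + u) ℓ - tm τ Q (Q * h + u) ℓst : ℕ)) : ℝ) * (1 / 2) ^ K ≤ 2 * (G * (K : ℝ) ^ (2 * κ + 1)) := by
          calc (((tm τ Q (Q * h + u) ℓ - tm τ Q (Q * h + u) ℓst : ℕ)) : ℝ) * (1 / 2) ^ K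
              ≤ (2 ^ (K + 1) * (G * (K : ℝ) ^ (2 * κ + 1))) * (1 / 2) ^ K := mul_le_mul_of_nonneg_right i1 (by positivity)
            _ = 2 * (G * (K : ℝ) ^ (2 * κ + 1)) * (2 ^ K * (1 / 2) ^ K) := by rw [pow_succ]; ring
            _ = 2 * (G * (K : ℝ) ^ (2 * κ + 1)) := by rw [← mul_pow]; norm_num
        have i3 : (K : ℝ) ^ (2 * κ + 1) ≤ (K : ℝ) ^ (2 * κ + 4) := pow_le_pow_right₀ hKr (by omega)
        have i4 : (G : ℝ) * (K : ℝ) ^ (2 * κ + 1) ≤ G * (K : ℝ) ^ (2 * κ + 4) := mul_le_mul_of_nonneg_left i3 (by positivity)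
        have i5 : 2 * ((K : ℝ) + 1) * (33000 * G * (K : ℝ) ^ (2 * κ + 3)) ≤ 4 * K * (33000 * G * (K : ℝ) ^ (2 * κ + 3)) :=
          mul_le_mul_of_nonneg_right (by linarith) (by positivity)
        have i6 : 4 * (K : ℝ) * (33000 * G * (K : ℝ) ^ (2 * κ + 3)) = 132000 * (G * (K : ℝ) ^ (2 * κ + 4)) := by
          rw [show (2 * κ + 4) = (2 * κ + 3) + 1 by omega, pow_succ]; ring
        have i7 : 0 ≤ (G : ℝ) * (K : ℝ) ^ (2 * κ + 4) := by positivity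
        linarith)
      unfold Us lin at h10
      simp only [e3 u hu, e4 u hu] at h10
      exact h10
    have h5 := class_sum hτ1 he hQ heQ x c hℓ hst (E := 140000 * G * (K : ℝ) ^ (2 * κ + 4)) (by positivity)
      (fun u hu _ => h4 u hu) h0 h1 h2
    refine h5.trans ?_
    have i1 : (Q : ℝ) * (140000 * G * (K : ℝ) ^ (2 * κ + 4)) = 140000 * X := by rw [hXdef]; ring
    rw [i1]
    nlinarith
  · -- generator with a rational power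
    have hr0 : (ty h).1 ≠ 0 := by
      have := h3.hr
      omega
    have hp2 : 2 ≤ (ty h).2.1 := by
      have := h3.hpq
      have := h3.hq
      omega
    have hp0 : (ty h).2.1 ≠ 0 := by omega
    have hrat : ∀ n : ℕ, c (τ h ^ n) = 0 := fun n => by
      refine hc _ ⟨(ty h).1, h3.hr, ((((ty h).2.1 : ℚ) / (ty h).2.2) ^ n), ?_⟩
      rw [← pow_mul, mul_comm, pow_mul, h3.pow]
      push_cast
      rfl
    have hK3 : (1 : ℝ) ≤ (K : ℝ) ^ (2 * κ + 3) := one_le_pow₀ hKr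
    have h4 := class_rat hτ1 h3 he hQ heQ (H.hQr h hh hr0) hK1 x hℓ hst (E := 33000 * G * (K : ℝ) ^ (2 * κ + 3)) (by nlinarith)
      (fun u hu t ht => by
        obtain ⟨h5, h6, h7⟩ := hcls u hu
        have h9 := stage_sums4 H B c hℓ hst hgood hx h5 (q := t) (by
          rw [h6]
          unfold sysI
          rw [if_neg hp0]
          exact ht)
        rw [h6] at h9
        unfold sysf Us lin at h9
        simp only [e3 u hu, e4 u hu, if_neg hp0, hrat, add_zero] at h9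
        exact h9) h0 h1 h2
    have e5 : ∀ n : ℕ, c ((τ h ^ e) ^ n) = 0 := fun n => by rw [← pow_mul]; exact hrat _
    simp only [e5, add_zero]
    refine h4.trans ?_
    have hpm : 4 * (ty h).2.1 ≤ m := by
      have h5 := H.hm h hh
      unfold sysm at h5
      rwa [if_neg hp0] at h5
    have hpr : ((ty h).2.1 : ℝ) ≤ m / 4 := by
      have : (4 : ℝ) * ((ty h).2.1 : ℝ) ≤ m := by exact_mod_cast hpm
      linarith
    have hp3 : ((ty h).2.1 : ℝ) ^ 3 ≤ (m : ℝ) ^ 3 / 64 := by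
      calc ((ty h).2.1 : ℝ) ^ 3 ≤ ((m : ℝ) / 4) ^ 3 := pow_le_pow_left₀ (by positivity) hpr 3
        _ = _ := by ring
    have i1 : 40 * ((ty h).2.1 : ℝ) ^ 3 * Q * K * (33000 * G * (K : ℝ) ^ (2 * κ + 3)) = 1320000 * (((ty h).2.1 : ℝ) ^ 3 * X) := by
      rw [hXdef, show (2 * κ + 4) = (2 * κ + 3) + 1 by omega, pow_succ]; ring
    have i2 : ((ty h).2.1 : ℝ) ^ 3 * X ≤ (m : ℝ) ^ 3 / 64 * X := mul_le_mul_of_nonneg_right hp3 hX0
    have i3 : ((sInf {n : ℕ | 1 ≤ τ h ^ n * ℓ} : ℕ) : ℝ) - ((sInf {n : ℕ | 1 ≤ τ h ^ n * ℓst} : ℕ) : ℝ) ≤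
        2 ^ (K + 1) * (Q * G * (K : ℝ) ^ (2 * κ + 1)) := by
      have : ((sInf {n : ℕ | 1 ≤ τ h ^ n * ℓ} : ℕ) : ℝ) ≤ ((sInf {n : ℕ | 1 ≤ τ h ^ n * ℓst} : ℕ) : ℝ) +
          2 ^ (K + 1) * (Q * G * (K : ℝ) ^ (2 * κ + 1)) := by exact_mod_cast hN
      linarith
    have i4 : 4 * (((sInf {n : ℕ | 1 ≤ τ h ^ n * ℓ} : ℕ) : ℝ) - ((sInf {n : ℕ | 1 ≤ τ h ^ n * ℓst} : ℕ) : ℝ)) * (1 / 2) ^ K ≤ 8 * X := by
      calc 4 * (((sInf {n : ℕ | 1 ≤ τ h ^ n * ℓ} : ℕ) : ℝ) - ((sInf {n : ℕ | 1 ≤ τ h ^ n * ℓst} : ℕ) : ℝ)) * (1 / 2) ^ K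
          ≤ 4 * (2 ^ (K + 1) * (Q * G * (K : ℝ) ^ (2 * κ + 1))) * (1 / 2) ^ K := by
            refine mul_le_mul_of_nonneg_right (by linarith) (by positivity)
        _ = 8 * (Q * G * (K : ℝ) ^ (2 * κ + 1)) * (2 ^ K * (1 / 2) ^ K) := by rw [pow_succ]; ring
        _ = 8 * (Q * G * (K : ℝ) ^ (2 * κ + 1)) := by rw [← mul_pow]; norm_num
        _ ≤ 8 * X := by
          rw [hXdef]
          have : (K : ℝ) ^ (2 * κ + 1) ≤ (K : ℝ) ^ (2 * κ + 4) := pow_le_pow_right₀ hKr (by omega)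
          gcongr
    rw [i1]
    nlinarith

end Pool.Agent.Helper4.LD4
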